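import Pool.Agent.Helper32.FccExample
import Pool.Agent.Helper32.KLExist3

set_option autoImplicit false

namespace Pool.Agent.Results.MP_fcc599_al.ShiftingCaseFails

open Pool.Agent.Helper32.KL

/-- The shifting statement fails: there is an infinite irreducible right-angled Coxeter system of
finite rank with elements `y ≠ e`, `v₀`, `v₁ ≠ e` such that all hypotheses hold, the conclusion
fails, and in fact `μ(w, w'' v₀₂⁻¹) = 0` for every factorization `v₀ = v₀₁.v₀₂.v₀₃`. -/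
theorem result :
    ∃ (B W : Type) (_ : Group W) (M : CoxeterMatrix B) (cs : CoxeterSystem M W),
      Finite B ∧ Infinite W ∧ Irreducible M ∧ (∀ i j : B, i ≠ j → M i j = 2 ∨ M i j = 0) ∧
      Nonempty (KLData cs) ∧
      ∃ y v₀ v₁ : W, y ≠ 1 ∧ v₁ ≠ 1 ∧ ∀ K : KLData cs,
        ShiftHypotheses K y v₀ v₁ ∧ ¬ ShiftConclusion K y v₀ v₁ ∧
        (∀ v₀₁ v₀₂ v₀₃ : W, v₀ = v₀₁ * v₀₂ * v₀₃ →
          cs.length v₀ = cs.length v₀₁ + cs.length v₀₂ + cs.length v₀₃ →
          K.mu (y * v₀) (y * v₀ * v₁ * v₀₂⁻¹) = 0) :=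
  ⟨Fin 6, exMatrix.Group, inferInstance, exMatrix, exCs, inferInstance, exInfinite,
    exIrreducible, exRA, nonempty_klData exCs, ex_main⟩

end Pool.Agent.Results.MP_fcc599_al.ShiftingCaseFails
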